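import Pool.Agent.WT59.Tstar
import Pool.Agent.WG59.Cl1
import Pool.Agent.DP91.Main
import Pool.Agent.EX84.Adj
import Pool.Agent.EX84.Defs

/-!
THEOREM EX (note 2925 of MP_e6151a), the case `k = 1`: a set `Z` of `f + 1` elements does not contain good bases of two colours, if
`EX84.Star` holds.  LEMMA D (note 2848) is `EX84.adjF`.
-/

set_option autoImplicit false

namespace Pool.Agent.EX59

open Finset Pool.Agent.DT3 Pool.Agent.CF98 Pool.Agent.WT59 Pool.Agent.WG59

variable {α : Type*} [DecidableEq α] {r : Finset α → ℕ} {E F X Y Z A B J b b' : Finset α} {x y : α} {f : ℕ}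
  {Q : Finset α → Prop}

private theorem K1_set {E F Z J C0 : Finset α} {z : α} (hz : z ∈ Z) (hZ : Z ⊆ E) (hF : F ⊆ E)
    (hJE : ∀ w ∈ J, w ∈ E ∧ w ∉ Z ∧ w ∉ F) (hC0 : ∀ w ∈ C0, w ∈ F ∧ w ∉ Z) :
    E \ (Z.erase z ∪ ((((E \ Z) \ F) \ J) ∪ ((F \ Z) \ C0))) = insert z (J ∪ C0) := by
  ext w
  simp only [mem_sdiff, mem_union, mem_erase, mem_insert, ne_eq]
  by_cases h1 : w ∈ J
  · obtain ⟨a1, a2, a3⟩ := hJE w h1
    simp only [h1, a1, a2, a3, not_true, not_false_eq_true, and_true, true_and, and_false, false_and, or_false, false_or,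
      true_or, or_true]
  · by_cases h2 : w ∈ C0
    · obtain ⟨a2, a3⟩ := hC0 w h2
      simp only [h1, h2, a2, a3, hF a2, not_true, not_false_eq_true, and_true, true_and, and_false, false_and, or_false,
        false_or, true_or, or_true]
    · by_cases h3 : w = z
      · subst h3
        simp only [hz, hZ hz, not_true, not_false_eq_true, and_true, true_and, and_false, false_and, or_false,
          false_or, true_or, or_true]
      · by_cases h4 : w ∈ Z
        · simp only [h1, h2, h3, h4, hZ h4, not_true, not_false_eq_true, and_true, true_and, and_false, false_and, or_false,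
            false_or, true_or, or_true]
        · by_cases h5 : w ∈ F
          · simp only [h1, h2, h3, h4, h5, hF h5, not_true, not_false_eq_true, and_true, true_and, and_false, false_and,
              or_false, false_or, true_or, or_true]
          · simp only [h1, h2, h3, h4, h5, not_true, not_false_eq_true, and_true, true_and, and_false, false_and,
              or_false, false_or, true_or, or_true]
            exact ⟨fun h => absurd h.1 h.2, False.elim⟩

private theorem K1_ar {f rF jc y1 y2 y3 dc b0 z ec : ℕ} (n1 : y1 + z = ec) (hz : z = f + 1) (n4 : ec = 3 * f)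
    (n2 : y2 + dc = y1) (n3 : y3 + jc = y2) (hJ : jc + 1 + rF = f) (hd : dc = rF + rF) (c3 : b0 = rF) : y3 + b0 = f := by
  omega

private theorem K1_ar2 {f rF jc c0 : ℕ} (hJ : jc + 1 + rF = f) (c1 : c0 = rF) : jc + c0 + 1 = f := by
  omega

/-- Two tokens seen by the same `J`. -/
theorem stp_of_J (hE : Env r E f) (hZ : Z ⊆ E) (hZc : Z.card = f + 1) (hok : Ok r r E Z) (hF : F ⊆ E) (hFt : Ti r r Z F)
    (hJ : J ⊆ (E \ Z) \ F) (hJc : J.card + 1 + r F = f) (hJ3 : r (((E \ Z) \ F) \ J ∪ F) = f)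
    (hx : x ∈ Z) (hxr : r (Z.erase x) = f) (hxJ : r (insert x J ∪ F) = f)
    (hy : y ∈ Z) (hyr : r (Z.erase y) = f) (hyJ : r (insert y J ∪ F) = f) : Stp r E f (Z.erase x) (Z.erase y) := by
  classical
  have hr := hE.rk
  unfold Ti at hFt
  set D : Finset α := F \ Z with hDd
  have hDF : D ⊆ F := sdiff_subset
  have hDX : ∀ X ⊆ D, X.card ≤ r X + r X := by
    intro X hX
    have h1 := hok X (hX.trans (hDF.trans hF))
    have e1 : X \ Z = X := by
      rw [Finset.sdiff_eq_self_iff_disjoint, Finset.disjoint_left]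
      intro z hz hz'
      exact (mem_sdiff.1 (hX hz)).2 hz'
    rwa [e1] at h1
  have hDr : r D = r F := by
    have h1 := hDX D (Subset.refl _)
    have h2 := hr.mono D F hDF
    omega
  obtain ⟨C0, hC0, c1, c2, c3, c4⟩ := split2 (Y := D) hr hr (by rw [hDr]; omega) hDX
  rw [hDr] at c1 c2 c3 c4
  set B0 : Finset α := D \ C0 with hB0d
  have hB0D : B0 ⊆ D := sdiff_subset
  have hC0F := hC0.trans hDF
  have hB0F := hB0D.trans hDF
  have hJE : ∀ z ∈ J, z ∈ E ∧ z ∉ Z ∧ z ∉ F := by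
    intro z hz
    have := hJ hz
    simp only [mem_sdiff] at this
    exact ⟨this.1.1, this.1.2, this.2⟩
  have hDE : ∀ z ∈ D, z ∈ E ∧ z ∉ Z ∧ z ∈ F := by
    intro z hz
    have := mem_sdiff.1 hz
    exact ⟨hF this.1, this.2, this.1⟩
  set C : Finset α := (((E \ Z) \ F) \ J) ∪ B0 with hCd
  have hCE : ∀ z ∈ C, z ∈ E ∧ z ∉ Z := by
    intro z hz
    rcases mem_union.1 hz with hz | hz
    · simp only [mem_sdiff] at hz
      exact ⟨hz.1.1.1, hz.1.1.2⟩
    · exact ⟨(hDE z (hB0D hz)).1, (hDE z (hB0D hz)).2.1⟩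
  -- counts
  have n1 := card_sdiff_add_card_eq_card hZ
  have n2 : ((E \ Z) \ F).card + ((E \ Z) ∩ F).card = (E \ Z).card := card_sdiff_add_card_inter _ _
  have e2 : (E \ Z) ∩ F = D := by
    ext z
    simp only [hDd, mem_inter, mem_sdiff]
    constructor
    · rintro ⟨⟨h1, h2⟩, h3⟩; exact ⟨h3, h2⟩
    · rintro ⟨h1, h2⟩; exact ⟨⟨hF h1, h2⟩, h1⟩
  rw [e2] at n2
  have n3 := card_sdiff_add_card_eq_card hJ
  have n4 := hE.card
  have dC : Disjoint (((E \ Z) \ F) \ J) B0 := by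
    rw [disjoint_left]
    intro z hz hz'
    exact (mem_sdiff.1 (mem_sdiff.1 hz).1).2 (hB0F hz')
  have hBsC : Bs r f C := by
    refine ⟨?_, ?_⟩
    · rw [hCd, card_union_of_disjoint dC]
      exact K1_ar n1 hZc n4 n2 n3 hJc hFt c3
    · rw [hCd, union_comm, rk_cup_congr hr hB0F c4, union_comm]
      exact hJ3
  have key : ∀ z ∈ Z, r (Z.erase z) = f → r (insert z J ∪ F) = f →
      Bs r f (Z.erase z) ∧ Disjoint (Z.erase z) C ∧ Bs r f (E \ (Z.erase z ∪ C)) := by
    intro z hz hzr hzJ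
    have e3 : E \ (Z.erase z ∪ C) = insert z (J ∪ C0) :=
      K1_set hz hZ hF hJE (fun w h => mem_sdiff.1 (hC0 h))
    have hzC : z ∉ J ∪ C0 := by
      intro h
      rcases mem_union.1 h with h | h
      · exact (hJE z h).2.1 hz
      · exact (hDE z (hC0 h)).2.1 hz
    have dJ : Disjoint J C0 := by
      rw [disjoint_left]
      intro w hw hw'
      exact (hJE w hw).2.2 (hC0F hw')
    refine ⟨⟨?_, hzr⟩, ?_, ?_⟩
    · rw [card_erase_of_mem hz, hZc, Nat.add_sub_cancel]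
    · rw [disjoint_left]
      intro w hw hw'
      exact (hCE w hw').2 (mem_of_mem_erase hw)
    · rw [e3]
      refine ⟨?_, ?_⟩
      · rw [card_insert_of_notMem hzC, card_union_of_disjoint dJ]
        exact K1_ar2 hJc c1
      · rw [show insert z (J ∪ C0) = C0 ∪ insert z J by rw [union_insert, union_comm C0 J],
          rk_cup_congr hr hC0F c2, union_comm]
        exact hzJ
  obtain ⟨k1, k2, k3⟩ := key x hx hxr hxJ
  obtain ⟨l1, l2, l3⟩ := key y hy hyr hyJ
  exact ⟨(erase_subset _ _).trans hZ, (erase_subset _ _).trans hZ, k1, l1, C, fun z hz => (hCE z hz).1, k2, l2, hBsC, k3, l3⟩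

/-- `Z - x` is good for `x` in the circuit of `Z` outside `FF Z`. -/
theorem gd_er (hZ : Z ⊆ E) (hZc : Z.card = f + 1) (hok : Ok r r E Z) (hx : x ∈ Z)
    (hxr : r (Z.erase x) = f) (hxF : x ∉ FF r r E Z) : Gd r E f (Z.erase x) := by
  refine ⟨(erase_subset _ _).trans hZ, ⟨?_, hxr⟩, two_of_sg ?_⟩
  · rw [card_erase_of_mem hx]; omega
  · intro X hX
    unfold sg
    rw [DP91.card_er hx]
    have h1 := hok X hX
    split_ifs with hxX
    · have h2 : (X \ Z).card ≠ r X + r X := fun h => hxF (FF_max hX h hxX)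
      push_cast
      omega
    · push_cast
      omega

/-- The case `k = 1`. -/
theorem k1Z (hE : Env r E f) (hX : EX84.Star r E f) (hQ : ∀ A A', Stp r E f A A' → Q A → Q A') (hZ : Z ⊆ E)
    (hZc : Z.card = f + 1) (hb : Gd r E f b) (hbZ : b ⊆ Z) (hb' : Gd r E f b') (hbZ' : b' ⊆ Z) (hq : Q b) : Q b' := by
  classical
  by_contra hq'
  have hr := hE.rk
  have hok : Ok r r E Z := ok_sub (gd_ok hE hb) hbZ
  set F : Finset α := FF r r E Z with hFd
  have hFE : F ⊆ E := FF_sub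
  have hFt : Ti r r Z F := FF_ti hr hr hok
  have hrE : ∀ X ⊆ E, r X ≤ f := fun X hX => by
    have := hr.mono X E hX
    rwa [hE.rank] at this
  have hmiss : ∀ T, Gd r E f T → T ⊆ Z → ∃ x ∈ Z, T = Z.erase x := by
    intro T hT hTZ
    have h1 := card_sdiff_add_card_eq_card hTZ
    have h2 := hT.2.1.1
    have h3 : (Z \ T).card = 1 := by omega
    obtain ⟨x, hx⟩ := card_eq_one.1 h3
    have hx' : x ∈ Z \ T := by rw [hx]; exact mem_singleton_self x
    have hx'' := mem_sdiff.1 hx'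
    refine ⟨x, hx''.1, ?_⟩
    ext z
    rw [mem_erase]
    constructor
    · intro hz
      exact ⟨fun e => hx''.2 (e ▸ hz), hTZ hz⟩
    · rintro ⟨hz, hz'⟩
      by_contra hn
      have h4 : z ∈ Z \ T := mem_sdiff.2 ⟨hz', hn⟩
      rw [hx, mem_singleton] at h4
      exact hz h4
  set A : Finset α := Z.filter fun x => Gd r E f (Z.erase x) ∧ Q (Z.erase x) with hAd
  set B : Finset α := Z.filter fun x => Gd r E f (Z.erase x) ∧ ¬ Q (Z.erase x) with hBd
  have hA : ∀ x ∈ A, x ∈ Z ∧ Gd r E f (Z.erase x) ∧ Q (Z.erase x) := fun x hx => mem_filter.1 hx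
  have hB : ∀ x ∈ B, x ∈ Z ∧ Gd r E f (Z.erase x) ∧ ¬ Q (Z.erase x) := fun x hx => mem_filter.1 hx
  obtain ⟨p, hpZ, hpb⟩ := hmiss b hb hbZ
  obtain ⟨p', hpZ', hpb'⟩ := hmiss b' hb' hbZ'
  have hpA : p ∈ A := mem_filter.2 ⟨hpZ, hpb ▸ hb, hpb ▸ hq⟩
  have hpB : p' ∈ B := mem_filter.2 ⟨hpZ', hpb' ▸ hb', hpb' ▸ hq'⟩
  have htF : ∀ x ∈ Z, Gd r E f (Z.erase x) → x ∉ F := by
    intro x hx hg
    exact ti_disj (gd_ok hE hg) (erase_subset _ _) hFE hFt x hx (notMem_erase x Z)
  -- outside `F` the complement of `Z` is strictly sparse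
  have hsp2 : ∀ X ⊆ (E \ Z) \ F, X.Nonempty → X.card + 1 + r F + r F ≤ r (X ∪ F) + r (X ∪ F) := by
    intro X hX hXn
    have h0 : X ∪ F ⊆ E := union_subset (fun z hz => (mem_sdiff.1 (mem_sdiff.1 (hX hz)).1).1) hFE
    have h1 := hok (X ∪ F) h0
    have e1 : (X ∪ F) \ Z = X ∪ (F \ Z) := by
      ext z
      simp only [mem_sdiff, mem_union]
      constructor
      · rintro ⟨h | h, h2⟩
        · exact Or.inl h
        · exact Or.inr ⟨h, h2⟩
      · rintro (h | h)
        · exact ⟨Or.inl h, (mem_sdiff.1 (mem_sdiff.1 (hX h)).1).2⟩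
        · exact ⟨Or.inr h.1, h.2⟩
    have d1 : Disjoint X (F \ Z) := by
      rw [disjoint_left]
      intro z hz hz'
      exact (mem_sdiff.1 (hX hz)).2 (mem_sdiff.1 hz').1
    have h2 : ((X ∪ F) \ Z).card = X.card + (F \ Z).card := by rw [e1, card_union_of_disjoint d1]
    unfold Ti at hFt
    by_contra hlt
    have h3 : X ∪ F ⊆ F := FF_max h0 (by unfold Ti; omega)
    obtain ⟨z, hz⟩ := hXn
    exact (mem_sdiff.1 (hX hz)).2 (h3 (mem_union_left _ hz))
  -- `x ∉ F` for elements of `E` means `x` outside the closure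
  have hFfl : ∀ x ∈ Z, x ∉ F → r (insert x F) ≠ r F := by
    intro x hx hxF h0
    have h1 : insert x F ⊆ F := FF_max (insert_subset (hZ hx) hFE) (by
      unfold Ti at hFt ⊢
      rw [insert_sdiff_of_mem F hx, h0]
      exact hFt)
    exact hxF (h1 (mem_insert_self x F))
  have hAl : ∀ x ∈ A, r (insert x F) ≠ r F := fun x hx => hFfl x (hA x hx).1 (htF x (hA x hx).1 (hA x hx).2.1)
  have hBl : ∀ x ∈ B, r (insert x F) ≠ r F := fun x hx => hFfl x (hB x hx).1 (htF x (hB x hx).1 (hB x hx).2.1)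
  -- no common `J`
  have hno : ∀ J ⊆ (E \ Z) \ F, J.card + 1 + r F = f → r (((E \ Z) \ F) \ J ∪ F) = f →
      ∀ x ∈ A, ∀ y ∈ B, r (insert x J ∪ F) = f → r (insert y J ∪ F) = f → False := by
    intro J hJ hJc hJ3 x hx y hy hxJ hyJ
    have h1 := stp_of_J hE hZ hZc hok hFE hFt hJ hJc hJ3 (hA x hx).1 (hA x hx).2.1.2.1.2 hxJ (hB y hy).1
      (hB y hy).2.1.2.1.2 hyJ
    exact (hB y hy).2.2 (hQ _ _ h1 (hA x hx).2.2)
  -- T*: skewness
  have hpp : p ≠ p' := by
    intro e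
    exact (hB p' hpB).2.2 (e ▸ (hA p hpA).2.2)
  -- every element of a colour class is in the closure of the rest
  have htok : ∀ x ∈ Z, Gd r E f (Z.erase x) → ∀ K : Finset α,
      (∀ y, y ∈ K ↔ (y ∈ Z ∧ y ≠ x ∧ Gd r E f (Z.erase y) ∧ (Q (Z.erase x) ↔ Q (Z.erase y)))) →
      r (insert x (F ∪ K)) = r (F ∪ K) := by
    intro x hx hg K hK
    have hxE : x ∈ E \ Z.erase x := mem_sdiff.2 ⟨hZ hx, notMem_erase x Z⟩
    have h1 := DP91.tg_ff hE hg hxE
    rw [insert_erase hx] at h1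
    refine tst hE hQ hg hxE h1 ?_
    intro y
    rw [hK y]
    have e1 : y ≠ x → insert x ((Z.erase x).erase y) = Z.erase y := by
      intro hne
      rw [erase_right_comm, insert_erase (mem_erase.2 ⟨hne.symm, hx⟩)]
    constructor
    · rintro ⟨h2, h3, h4, h5⟩
      rw [e1 h3]
      exact ⟨mem_erase.2 ⟨h3, h2⟩, htF y h2 h4, h4.2.1.2, h5⟩
    · rintro ⟨h2, h3, h4, h5⟩
      have h6 := mem_erase.1 h2
      rw [e1 h6.1] at h4 h5
      exact ⟨h6.2, h6.1, gd_er hZ hZc hok h6.2 h4 h3, h5⟩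
  have hAc : ∀ x ∈ A, r (insert x (F ∪ A.erase x)) = r (F ∪ A.erase x) := by
    intro x hx
    refine htok x (hA x hx).1 (hA x hx).2.1 _ ?_
    intro y
    have h1 := (hA x hx).2.2
    rw [mem_erase, hAd, mem_filter]
    tauto
  have hBc : ∀ x ∈ B, r (insert x (F ∪ B.erase x)) = r (F ∪ B.erase x) := by
    intro x hx
    refine htok x (hB x hx).1 (hB x hx).2.1 _ ?_
    intro y
    have h1 := (hB x hx).2.2
    rw [mem_erase, hBd, mem_filter]
    tauto
  -- pairs of tokens of one colour are independent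
  have hpair : ∀ x y z : α, x ∈ Z → y ∈ Z → z ∈ Z → r (Z.erase z) = f → x ≠ y → x ≠ z → y ≠ z → r {x, y} = 2 := by
    intro x y z hx hy hz hzr hxy hxz hyz
    have h1 : r (Z.erase z) = (Z.erase z).card := by
      rw [card_erase_of_mem hz]; omega
    have h2 := ind_sub hr h1 (insert_subset (mem_erase.2 ⟨hxz, hx⟩) (singleton_subset_iff.2 (mem_erase.2 ⟨hyz, hy⟩)))
    rw [h2, card_pair hxy]
  have hAB : ∀ x ∈ A, x ∉ B := fun x hx hx' => (hB x hx').2.2 (hA x hx).2.2
  have hAE : A ⊆ E := fun x hx => hZ (hA x hx).1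
  have hBE : B ⊆ E := fun x hx => hZ (hB x hx).1
  have hfE := hE.rank
  have n1 := card_sdiff_add_card_eq_card hZ
  have n2 : ((E \ Z) \ F).card + ((E \ Z) ∩ F).card = (E \ Z).card := card_sdiff_add_card_inter _ _
  have e2 : (E \ Z) ∩ F = F \ Z := by
    ext z
    simp only [mem_inter, mem_sdiff]
    constructor
    · rintro ⟨⟨h1, h2⟩, h3⟩; exact ⟨h3, h2⟩
    · rintro ⟨h1, h2⟩; exact ⟨⟨hFE h1, h2⟩, h1⟩
  rw [e2] at n2
  have n4 := hE.card
  have hFt' := hFt
  unfold Ti at hFt'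
  have hYE : (E \ Z) \ F ⊆ E := sdiff_subset.trans sdiff_subset
  have hdZ : ∀ K ⊆ Z, Disjoint K ((E \ Z) \ F) := by
    intro K hK
    rw [disjoint_left]
    intro z hz hz'
    exact (mem_sdiff.1 (mem_sdiff.1 hz').1).2 (hK hz)
  have hlAB : ∀ x ∈ A ∪ B, r (insert x F) ≠ r F := by
    intro x hx
    rcases mem_union.1 hx with hx | hx
    · exact hAl x hx
    · exact hBl x hx
  have her : ∀ K : Finset α, (∀ x ∈ K, r (insert x (F ∪ K.erase x)) = r (F ∪ K.erase x)) →
      ∀ x ∈ K, r (F ∪ K.erase x) = r (F ∪ K) := by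
    intro K hK x hx
    rw [← hK x hx, ← union_insert, insert_erase hx]
  rcases EX84.adjF (S := (E \ Z) \ F) (F := F) (K1 := A) (K2 := B) (g := f) hr disjoint_sdiff_self_left
    (hdZ A fun x hx => (hA x hx).1) (hdZ B fun x hx => (hB x hx).1) ⟨p, hpA⟩ ⟨p', hpB⟩ hlAB (by omega)
    (fun X hX hXn => by
      have h1 := hsp2 X hX hXn
      omega)
    (fun X hX => hrE X (hX.trans (union_subset (union_subset hYE hFE) (union_subset hAE hBE)))) with
    ⟨J, hJ, j1, j2, j3, ⟨x, hx, j4⟩, ⟨y, hy, j5⟩⟩ | ⟨h1, h2⟩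
  · exact hno J hJ j1 j3 x hx y hy (by rw [insert_union]; exact j4) (by rw [insert_union]; exact j5)
  · refine h2 (hX F hFE A hAE B hBE ⟨p, hpA⟩ ⟨p', hpB⟩ ?_ ?_ hlAB (her A hAc) (her B hBc) h1)
    · intro x hx y hy hxy
      refine hpair x y p' (hA x hx).1 (hA y hy).1 hpZ' (hB p' hpB).2.1.2.1.2 hxy ?_ ?_
      · intro e; exact hAB x hx (e ▸ hpB)
      · intro e; exact hAB y hy (e ▸ hpB)
    · intro x hx y hy hxy
      refine hpair x y p (hB x hx).1 (hB y hy).1 hpZ (hA p hpA).2.1.2.1.2 hxy ?_ ?_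
      · intro e; exact hAB p hpA (e ▸ hx)
      · intro e; exact hAB p hpA (e ▸ hy)

/-- The case `k = 1` of the closest pair. -/
theorem k1 {T0 T1 : Finset α} (hE : Env r E f) (hX : EX84.Star r E f) (h : EX84.Clo r E f Q T0 T1)
    (hQ : ∀ A A', Stp r E f A A' → Q A → Q A') (hc : (T0 \ T1).card = 1) : False := by
  refine h.q1 (k1Z (Z := T0 ∪ T1) hE hX hQ (union_subset h.g0.1 h.g1.1) ?_ h.g0 subset_union_left h.g1
    subset_union_right h.q0)
  have h1 : (T0 ∪ T1).card = T1.card + (T0 \ T1).card := by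
    rw [union_comm, ← union_sdiff_self_eq_union, card_union_of_disjoint disjoint_sdiff]
  have h2 := h.g1.2.1.1
  omega

end Pool.Agent.EX59
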